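import Pool.Agent.N20.DI.Stm

/-!
# Chains above a normal subgroup and chains of the quotient (helper55, project DI of helper20)
-/

set_option autoImplicit false

open scoped Classical

noncomputable section

namespace Pool.Agent.N55.DI

open Pool.Agent.Y63.KR (IsPChain chainStabilizer conjSub mem_chainStabilizer mem_conjSub)
open Pool.Agent.R674.Ce (chs wt Sp)
open Pool.Agent.N20.DI

variable {Γ : Type} [Group Γ] {Q : Type} [Group Q] {K : Subgroup Γ}

/-- the subgroup of `Γ` above a subgroup of the quotient -/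
def L (π : K →* Q) (P : Subgroup Q) : Subgroup Γ := (P.comap π).map K.subtype

lemma mem_L (π : K →* Q) (P : Subgroup Q) (y : Γ) : y ∈ L π P ↔ ∃ h : y ∈ K, π ⟨y, h⟩ ∈ P := by
  unfold L
  rw [Subgroup.mem_map]
  constructor
  · rintro ⟨x, hx, rfl⟩
    exact ⟨x.2, hx⟩
  · rintro ⟨h, hy⟩
    exact ⟨⟨y, h⟩, hy, rfl⟩

lemma L_le (π : K →* Q) (hπ : Function.Surjective π) (P P' : Subgroup Q) :
    L π P ≤ L π P' ↔ P ≤ P' := by
  unfold L
  rw [Subgroup.map_le_map_iff_of_injective K.subtype_injective,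
    Subgroup.comap_le_comap_of_surjective hπ]

lemma L_inj (π : K →* Q) (hπ : Function.Surjective π) : Function.Injective (L π) := by
  intro P P' h
  exact le_antisymm ((L_le π hπ P P').1 h.le) ((L_le π hπ P' P).1 h.ge)

lemma L_bot (π : K →* Q) {R : Subgroup Γ} (hR : R ≤ K) (hker : π.ker = R.subgroupOf K) :
    L π ⊥ = R := by
  unfold L
  rw [MonoidHom.comap_bot, hker, Subgroup.subgroupOf_map_subtype, inf_eq_left.mpr hR]

lemma conjSub_L (π : K →* Q) (P : Subgroup Q) (x : K) :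
    conjSub (x : Γ) (L π P) = L π (conjSub (π x) P) := by
  ext y
  rw [mem_conjSub, mem_L, mem_L]
  constructor
  · rintro ⟨h, hy⟩
    have hyK : y ∈ K := by
      have h1 := K.mul_mem (K.mul_mem x.2 h) (K.inv_mem x.2)
      have e : (x : Γ) * ((x : Γ)⁻¹ * y * x) * (x : Γ)⁻¹ = y := by group
      rwa [e] at h1
    refine ⟨hyK, ?_⟩
    rw [mem_conjSub]
    have e : (⟨(x : Γ)⁻¹ * y * x, h⟩ : K) = x⁻¹ * ⟨y, hyK⟩ * x := rfl
    rw [e, map_mul, map_mul, map_inv] at hy
    exact hy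
  · rintro ⟨h, hy⟩
    refine ⟨K.mul_mem (K.mul_mem (K.inv_mem x.2) h) x.2, ?_⟩
    rw [mem_conjSub] at hy
    have e : (⟨(x : Γ)⁻¹ * y * x, K.mul_mem (K.mul_mem (K.inv_mem x.2) h) x.2⟩ : K) =
        x⁻¹ * ⟨y, h⟩ * x := rfl
    rw [e, map_mul, map_mul, map_inv]
    exact hy

lemma stab_L (π : K →* Q) (hπ : Function.Surjective π) (σ : Set (Subgroup Q)) :
    K ⊓ chainStabilizer (L π '' σ) = L π (chainStabilizer σ) := by
  ext x
  rw [Subgroup.mem_inf, mem_chainStabilizer, mem_L]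
  constructor
  · rintro ⟨hx, h⟩
    refine ⟨hx, ?_⟩
    rw [mem_chainStabilizer]
    intro P hP
    have h1 := h _ ⟨P, hP, rfl⟩
    have h2 := conjSub_L π P ⟨x, hx⟩
    change conjSub x (L π P) = _ at h2
    rw [h2] at h1
    exact L_inj π hπ h1
  · rintro ⟨hx, h⟩
    refine ⟨hx, ?_⟩
    rintro _ ⟨P, hP, rfl⟩
    have h2 := conjSub_L π P ⟨x, hx⟩
    change conjSub x (L π P) = _ at h2
    rw [h2, mem_chainStabilizer.mp h P hP]

theorem CH : S_CH := by
  intro p Γ _ _ Q _ _ K R hRK hR π hπ hker f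
  symm
  unfold chs
  have hinj : Function.Injective (L π) := L_inj π hπ
  have hle := L_le π hπ
  have hbot : L π ⊥ = R := L_bot π hRK hker
  have hkp : IsPGroup p π.ker := by
    rw [hker]
    exact hR.comap_subtype
  refine finsum_eq_of_bijective (fun σ : {σ : Set (Subgroup Q) // IsPChain p σ} =>
    (⟨L π '' σ.1, ?_, ?_⟩ :
      {σ : Set (Subgroup Γ) // σ ⊆ {P : Subgroup Γ | IsPGroup p P ∧ R < P ∧ P ≤ K} ∧
        IsChain (· ≤ ·) σ})) ⟨?_, ?_⟩ ?_
  · rintro _ ⟨P, hP, rfl⟩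
    refine ⟨((σ.2.isPGroup P hP).comap_of_ker_isPGroup π hkp).map _, ?_, ?_⟩
    · refine lt_of_le_of_ne ?_ ?_
      · rw [← hbot, hle]
        exact bot_le
      · intro h
        rw [← hbot] at h
        exact σ.2.ne_bot P hP (hinj h).symm
    · rintro _ ⟨x, _, rfl⟩
      exact x.2
  · rintro _ ⟨P, hP, rfl⟩ _ ⟨P', hP', rfl⟩ _
    rcases σ.2.chain.total hP hP' with h | h
    · exact Or.inl ((hle P P').2 h)
    · exact Or.inr ((hle P' P).2 h)
  · intro σ τ h
    have h1 := congrArg Subtype.val h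
    exact Subtype.ext (hinj.image_injective h1)
  · rintro ⟨τ, h1, h2⟩
    have h3 : ∀ P ∈ τ, L π ((P.subgroupOf K).map π) = P := fun P hP => by
      have h4 : π.ker ≤ P.subgroupOf K := by
        rw [hker]
        exact Subgroup.comap_mono (h1 hP).2.1.le
      unfold L
      rw [Subgroup.comap_map_eq_self h4, Subgroup.subgroupOf_map_subtype,
        inf_eq_left.mpr (h1 hP).2.2]
    refine ⟨⟨(fun P : Subgroup Γ => (P.subgroupOf K).map π) '' τ, ⟨?_, ?_, ?_⟩⟩, ?_⟩
    · rintro _ ⟨P, hP, rfl⟩ _ ⟨P', hP', rfl⟩ _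
      rcases h2.total hP hP' with h | h
      · exact Or.inl (Subgroup.map_mono (Subgroup.comap_mono h))
      · exact Or.inr (Subgroup.map_mono (Subgroup.comap_mono h))
    · rintro _ ⟨P, hP, rfl⟩
      exact (h1 hP).1.comap_subtype.map π
    · rintro _ ⟨P, hP, rfl⟩ h
      have h4 := h3 P hP
      rw [show (P.subgroupOf K).map π = ⊥ from h, hbot] at h4
      exact (h1 hP).2.1.ne h4
    · apply Subtype.ext
      change L π '' ((fun P : Subgroup Γ => (P.subgroupOf K).map π) '' τ) = τ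
      rw [← Set.image_comp]
      ext P
      constructor
      · rintro ⟨P', hP', rfl⟩
        change L π ((P'.subgroupOf K).map π) ∈ τ
        rw [h3 P' hP']
        exact hP'
      · intro hP
        exact ⟨P, hP, h3 P hP⟩
  · intro σ
    change _ = wt K f (L π '' σ.1)
    unfold wt
    rw [stab_L π hπ, Set.ncard_image_of_injective _ hinj]
    rfl

end Pool.Agent.N55.DI
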