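import Mathlib
import Pool.Agent.N208.BT.Stm

/-!
# The traces of an irreducible group of isometries of signature (1, n) are not bounded
-/

set_option autoImplicit false

noncomputable section

namespace Pool.Agent.N55.BTTR

open Matrix Module Pool.Agent.N208.BT

variable {n : ℕ}

/-! ### Schur and Burnside -/

lemma schur {Q : Set (M n)} (hI : Irr Q) (T : M n) (hT : ∀ g ∈ Q, T * g = g * T) :
    ∃ t : ℂ, T = t • (1 : M n) := by
  obtain ⟨c, hc⟩ := Module.End.exists_eigenvalue (K := ℂ) (V := V n) (mulVecLin T)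
  obtain ⟨v, hv⟩ := hc.exists_hasEigenvector
  let W : Submodule ℂ (V n) :=
    { carrier := {u | T *ᵥ u = c • u}
      add_mem' := by
        intro a b ha hb
        change T *ᵥ (a + b) = c • (a + b)
        rw [mulVec_add, ha, hb, smul_add]
      zero_mem' := by
        change T *ᵥ 0 = c • 0
        rw [mulVec_zero, smul_zero]
      smul_mem' := by
        intro k a ha
        change T *ᵥ (k • a) = c • k • a
        rw [mulVec_smul, ha, smul_comm] }
  rcases hI W (by
    intro g hg u hu
    change T *ᵥ (g *ᵥ u) = c • (g *ᵥ u)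
    rw [mulVec_mulVec, hT g hg, ← mulVec_mulVec, show T *ᵥ u = c • u from hu, mulVec_smul]) with h | h
  · exfalso
    have h2 : v ∈ W := by
      have := hv.apply_eq_smul
      exact this
    rw [h, Submodule.mem_bot] at h2
    exact hv.2 h2
  · refine ⟨c, ?_⟩
    apply Matrix.toLin'.injective
    ext1 i
    apply LinearMap.ext
    intro x
    simp only [LinearMap.coe_comp, Function.comp_apply]
    have h2 : (LinearMap.single ℂ (fun _ : Fin (n + 1) => ℂ) i) x ∈ W := by rw [h]; trivial
    have h3 : T *ᵥ ((LinearMap.single ℂ (fun _ : Fin (n + 1) => ℂ) i) x) =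
      c • ((LinearMap.single ℂ (fun _ : Fin (n + 1) => ℂ) i) x) := h2
    rw [Matrix.toLin'_apply, Matrix.toLin'_apply, h3, smul_mulVec, one_mulVec]

lemma burnside {Q : Set (M n)} (hI : Irr Q) : Algebra.adjoin ℂ Q = ⊤ := by
  rw [eq_top_iff]
  intro F _
  let A := Algebra.adjoin ℂ Q
  let U : Submodule ℂ (V n) := ⊤
  let ρ : A →+* Module.End ℂ U :=
    { toFun := fun N => (mulVecLin (N : M n)).restrict fun u _ => trivial
      map_one' := by
        ext1 u
        exact Subtype.ext (one_mulVec _)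
      map_mul' := fun X Y => by
        ext1 u
        refine Subtype.ext ?_
        change ((X : M n) * (Y : M n)) *ᵥ (u : V n) = (X : M n) *ᵥ ((Y : M n) *ᵥ (u : V n))
        exact (mulVec_mulVec _ _ _).symm
      map_zero' := by
        ext1 u
        refine Subtype.ext ?_
        change (0 : M n) *ᵥ (u : V n) = 0
        exact zero_mulVec _
      map_add' := fun X Y => by
        ext1 u
        refine Subtype.ext ?_
        change ((X : M n) + (Y : M n)) *ᵥ (u : V n) = (X : M n) *ᵥ (u : V n) + (Y : M n) *ᵥ (u : V n)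
        exact add_mulVec _ _ _ }
  let _ : Module A U := Module.compHom U ρ
  have hsm : ∀ (N : A) (u : U), ((N • u : U) : V n) = (N : M n) *ᵥ (u : V n) := fun _ _ => rfl
  have hnt : Nontrivial U := by
    refine ⟨⟨⟨Pi.single 0 1, trivial⟩, 0, fun h => ?_⟩⟩
    have h1 := congrArg (fun z : U => (z : V n) 0) h
    simp at h1
  have hC : ∀ c : ℂ, ∃ N : A, ∀ u : U, N • u = c • u := by
    intro c
    refine ⟨algebraMap ℂ _ c, fun u => Subtype.ext ?_⟩
    rw [hsm]
    change (algebraMap ℂ (M n) c) *ᵥ _ = _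
    rw [Algebra.algebraMap_eq_smul_one, smul_mulVec, one_mulVec]
    rfl
  have hsimple : IsSimpleModule A U := by
    have : IsSimpleOrder (Submodule A U) := by
      refine { toNontrivial := inferInstance, eq_bot_or_eq_top := fun W => ?_ }
      let W' : Submodule ℂ (V n) :=
        { carrier := {v | (⟨v, trivial⟩ : U) ∈ W}
          add_mem' := by
            intro a b ha hb
            exact W.add_mem ha hb
          zero_mem' := W.zero_mem
          smul_mem' := by
            intro c a ha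
            obtain ⟨N, hN⟩ := hC c
            have h1 := W.smul_mem N ha
            rw [hN] at h1
            exact h1 }
      have h2 : ∀ X ∈ Q, ∀ u ∈ W', X *ᵥ u ∈ W' := by
        intro X hX v hv
        exact W.smul_mem (⟨X, Algebra.subset_adjoin hX⟩ : A) hv
      rcases hI W' h2 with h3 | h3
      · left
        rw [eq_bot_iff]
        intro u hu
        have h4 : (u : V n) ∈ W' := hu
        rw [h3, Submodule.mem_bot] at h4
        exact (Submodule.mem_bot _).2 (Subtype.ext h4)
      · right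
        rw [eq_top_iff]
        intro u _
        have h4 : (u : V n) ∈ W' := by
          rw [h3]
          exact u.2
        exact h4
    exact ⟨⟩
  have hschur : ∀ φ : Module.End A U, ∃ c : ℂ, ∀ u, φ u = c • u := by
    intro φ
    let φ' : Module.End ℂ U :=
      { toFun := φ
        map_add' := map_add φ
        map_smul' := fun c u => by
          obtain ⟨N, hN⟩ := hC c
          rw [← hN, map_smul, hN]
          rfl }
    obtain ⟨c, hc⟩ := Module.End.exists_eigenvalue φ'
    obtain ⟨v, hv⟩ := hc.exists_hasEigenvector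
    let W : Submodule A U :=
      { carrier := {u | φ u = c • u}
        add_mem' := by
          intro a b ha hb
          change φ (a + b) = c • (a + b)
          rw [map_add, ha, hb, smul_add]
        zero_mem' := by
          change φ 0 = c • 0
          rw [map_zero, smul_zero]
        smul_mem' := by
          intro N a ha
          change φ (N • a) = c • N • a
          rw [map_smul, ha]
          refine Subtype.ext ?_
          change (N : M n) *ᵥ (c • (a : V n)) = c • ((N : M n) *ᵥ (a : V n))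
          exact mulVec_smul _ _ _ }
    rcases eq_bot_or_eq_top W with h1 | h1
    · exfalso
      have h2 : v ∈ W := hv.apply_eq_smul
      rw [h1, Submodule.mem_bot] at h2
      exact hv.2 h2
    · refine ⟨c, fun u => ?_⟩
      have h2 : u ∈ W := by
        rw [h1]
        trivial
      exact h2
  let f : U →ₗ[ℂ] U := (mulVecLin F).restrict fun u _ => trivial
  let f' : Module.End (Module.End A U) U :=
    { toFun := f
      map_add' := map_add f
      map_smul' := fun φ u => by
        obtain ⟨c, hc⟩ := hschur φ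
        change f (φ u) = φ (f u)
        rw [hc, hc, map_smul] }
  classical
  obtain ⟨N, hN⟩ := jacobson_density f'
    (Finset.univ.image fun i : Fin (n + 1) => (⟨Pi.single i 1, trivial⟩ : U))
  have hNF : (N : M n) = F := by
    ext i j
    have h2 := hN ⟨Pi.single j 1, trivial⟩ (Finset.mem_image_of_mem _ (Finset.mem_univ j))
    have h3 := congrArg (fun z : U => (z : V n) i) h2
    have h4 : (F *ᵥ (Pi.single j 1 : V n)) i = ((N : M n) *ᵥ (Pi.single j 1 : V n)) i := h3
    rw [mulVec_single_one, mulVec_single_one] at h4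
    exact h4.symm
  rw [← hNF]
  exact N.2

lemma span_top {Q : Set (M n)} (hI : Irr Q) (h1 : (1 : M n) ∈ Q)
    (hm : ∀ g ∈ Q, ∀ g' ∈ Q, g * g' ∈ Q) : Submodule.span ℂ Q = ⊤ := by
  have h2 := burnside hI
  have h3 := congrArg Subalgebra.toSubmodule h2
  rw [Algebra.adjoin_eq_span, Algebra.top_toSubmodule] at h3
  have h4 : (Submonoid.closure Q : Set (M n)) = Q := by
    apply Set.Subset.antisymm
    · let S : Submonoid (M n) :=
        { carrier := Q
          mul_mem' := fun {a b} ha hb => hm a ha b hb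
          one_mem' := h1 }
      have : Submonoid.closure Q ≤ S := Submonoid.closure_le.2 (fun x hx => hx)
      exact this
    · exact Submonoid.subset_closure
  rw [h4] at h3
  exact h3

/-- boundedness of the entries -/
lemma bdd_entries {Q : Set (M n)} (hI : Irr Q) (h1 : (1 : M n) ∈ Q)
    (hm : ∀ g ∈ Q, ∀ g' ∈ Q, g * g' ∈ Q) (c : ℝ) (htr : ∀ g ∈ Q, ‖g.trace‖ ≤ c) :
    ∃ B : ℝ, 0 < B ∧ ∀ g ∈ Q, ∀ i j, ‖g i j‖ ≤ B := by
  have key : ∀ Y : M n, ∃ B : ℝ, 0 ≤ B ∧ ∀ g ∈ Q, ‖(g * Y).trace‖ ≤ B := by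
    intro Y
    have hY : Y ∈ Submodule.span ℂ Q := by rw [span_top hI h1 hm]; trivial
    induction hY using Submodule.span_induction with
    | mem Y hY =>
      exact ⟨c, (norm_nonneg _).trans (htr 1 h1), fun g hg => htr _ (hm g hg Y hY)⟩
    | zero => exact ⟨0, le_refl _, fun g _ => by simp⟩
    | add X Y _ _ hX hY =>
      obtain ⟨B1, hB1, hX⟩ := hX
      obtain ⟨B2, hB2, hY⟩ := hY
      refine ⟨B1 + B2, by linarith, fun g hg => ?_⟩
      rw [mul_add, trace_add]
      exact (norm_add_le _ _).trans (add_le_add (hX g hg) (hY g hg))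
    | smul a X _ hX =>
      obtain ⟨B1, hB1, hX⟩ := hX
      refine ⟨‖a‖ * B1, by positivity, fun g hg => ?_⟩
      rw [mul_smul_comm, trace_smul, norm_smul]
      exact mul_le_mul_of_nonneg_left (hX g hg) (norm_nonneg _)
  choose B hB0 hB using fun p : Fin (n + 1) × Fin (n + 1) => key (Matrix.single p.2 p.1 1)
  refine ⟨∑ p, B p + 1, by
    have : 0 ≤ ∑ p, B p := Finset.sum_nonneg fun p _ => hB0 p
    linarith, fun g hg i j => ?_⟩
  have h2 := hB (i, j) g hg
  have h3 : (g * Matrix.single j i (1 : ℂ)).trace = g i j := by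
    rw [Matrix.trace_mul_single]
    simp
  simp only at h2
  rw [h3] at h2
  have h4 : B (i, j) ≤ ∑ p, B p :=
    Finset.single_le_sum (f := B) (fun p _ => hB0 p) (Finset.mem_univ (i, j))
  linarith

/-! ### The space of matrices with its real inner product -/

/-- the space of matrices as a real inner product space -/
abbrev E (n : ℕ) : Type := PiLp 2 (fun _ : Fin (n + 1) × Fin (n + 1) => ℂ)

/-- the vector of a matrix -/
def ofM (X : M n) : E n := WithLp.toLp 2 fun p => X p.1 p.2

/-- the matrix of a vector -/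
def toM (x : E n) : M n := Matrix.of fun i j => x (i, j)

lemma toM_ofM (X : M n) : toM (ofM X) = X := rfl

lemma ofM_toM (x : E n) : ofM (toM x) = x := rfl

lemma ofM_apply (X : M n) (i j : Fin (n + 1)) : ofM X (i, j) = X i j := rfl

/-- the action -/
def L (g : M n) : E n →ₗ[ℝ] E n where
  toFun x := ofM (gᴴ * toM x * g)
  map_add' x y := by
    have : toM (x + y) = toM x + toM y := rfl
    rw [this, mul_add, add_mul]
    rfl
  map_smul' c x := by
    have : toM (c • x) = c • toM x := rfl
    rw [this, mul_smul_comm, smul_mul_assoc]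
    rfl

lemma L_apply (g : M n) (x : E n) : L g x = ofM (gᴴ * toM x * g) := rfl

lemma L_L (g h : M n) (x : E n) : L g (L h x) = L (h * g) x := by
  simp only [L_apply, toM_ofM, conjTranspose_mul, Matrix.mul_assoc]

lemma L_one (x : E n) : L 1 x = x := by
  simp only [L_apply, conjTranspose_one, one_mul, mul_one, ofM_toM]

lemma L_bdd (B : ℝ) (hB : 0 < B) (g : M n) (hg : ∀ i j, ‖g i j‖ ≤ B) (x : E n) :
    ‖L g x‖ ≤ ((n + 1 : ℝ) * ((n + 1 : ℝ) ^ 2 * B ^ 2)) * ‖x‖ := by
  have hx : ∀ i j, ‖toM x i j‖ ≤ ‖x‖ := fun i j => PiLp.norm_apply_le x (i, j)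
  have h1 : ∀ i j, ‖(gᴴ * toM x * g) i j‖ ≤ ((n + 1 : ℝ) ^ 2 * B ^ 2) * ‖x‖ := by
    intro i j
    have h2 : ∀ k, ‖(gᴴ * toM x) i k‖ ≤ (n + 1 : ℝ) * (B * ‖x‖) := by
      intro k
      rw [Matrix.mul_apply]
      refine (norm_sum_le _ _).trans ?_
      refine (Finset.sum_le_sum (g := fun _ => B * ‖x‖) fun l _ => ?_).trans (by simp)
      rw [norm_mul, conjTranspose_apply, norm_star]
      exact mul_le_mul (hg l i) (hx l k) (norm_nonneg _) hB.le
    rw [Matrix.mul_apply]
    refine (norm_sum_le _ _).trans ?_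
    refine (Finset.sum_le_sum (g := fun _ => ((n + 1 : ℝ) * (B * ‖x‖)) * B) fun l _ => ?_).trans ?_
    · rw [norm_mul]
      exact mul_le_mul (h2 l) (hg l j) (norm_nonneg _) (by positivity)
    · simp only [Finset.sum_const, Finset.card_univ, Fintype.card_fin, nsmul_eq_mul]
      push_cast
      apply le_of_eq
      ring
  have h3 : ‖L g x‖ ^ 2 ≤ (((n + 1 : ℝ) * ((n + 1 : ℝ) ^ 2 * B ^ 2)) * ‖x‖) ^ 2 := by
    rw [PiLp.norm_sq_eq_of_L2]
    refine (Finset.sum_le_sum (g := fun _ => (((n + 1 : ℝ) ^ 2 * B ^ 2) * ‖x‖) ^ 2)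
      fun p _ => ?_).trans ?_
    · exact pow_le_pow_left₀ (norm_nonneg _) (h1 p.1 p.2) 2
    · simp only [Finset.sum_const, Finset.card_univ, Fintype.card_prod, Fintype.card_fin,
        nsmul_eq_mul]
      push_cast
      apply le_of_eq
      ring
  exact le_of_sq_le_sq h3 (by positivity)

/-! ### The form -/

/-- the matrix of the form -/
def S (n : ℕ) : M n := Matrix.diagonal (Fin.cons 1 fun _ => -1)

lemma S_sq : S n * S n = 1 := by
  unfold S
  rw [Matrix.diagonal_mul_diagonal, ← Matrix.diagonal_one]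
  congr 1
  funext i
  refine Fin.cases ?_ (fun j => ?_) i
  · simp
  · simp

lemma hf_eq (x y : V n) : hf x y = star y ⬝ᵥ (S n *ᵥ x) := by
  unfold hf S
  rw [dotProduct, Fin.sum_univ_succ]
  simp only [Pi.star_apply, Matrix.mulVec_diagonal, Fin.cons_zero, Fin.cons_succ, one_mul, neg_mul,
    mul_neg, Finset.sum_neg_distrib]
  rw [sub_eq_add_neg]
  congr 1
  · ring
  · congr 1
    apply Finset.sum_congr rfl
    intro i _
    ring

lemma isU_matrix {g : M n} (hg : IsU g) : gᴴ * S n * g = S n := by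
  have h1 : ∀ x y : V n, star y ⬝ᵥ ((gᴴ * S n * g) *ᵥ x) = star y ⬝ᵥ (S n *ᵥ x) := by
    intro x y
    have h2 := hg x y
    rw [hf_eq, hf_eq] at h2
    rw [← h2, star_mulVec, ← dotProduct_mulVec, mulVec_mulVec, mulVec_mulVec, Matrix.mul_assoc]
  ext i j
  have h3 := h1 (Pi.single j 1) (Pi.single i 1)
  rw [mulVec_single_one, mulVec_single_one] at h3
  simpa using h3

theorem main : S_FP → S_TR := by
  intro hFP n hn Q h1 hm hinv hU hI
  by_contra hcon
  push Not at hcon
  obtain ⟨B, hB, hQB⟩ := bdd_entries hI h1 hm _ hcon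
  -- lower bound for the trace of `gᴴ * g`
  set c : ℝ := 1 / ((n + 1 : ℝ) * B ^ 2) with hc
  have hc0 : 0 < c := by positivity
  have hlow : ∀ g ∈ Q, c ≤ ∑ i, ((gᴴ * g) i i).re := by
    intro g hg
    obtain ⟨g', hg', hgg', hg'g⟩ := hinv g hg
    have h2 : (g' * g) 0 0 = 1 := by rw [hg'g]; simp
    have h3 : (1 : ℝ) ≤ ∑ j, B * ‖g j 0‖ := by
      have h4 : ‖(g' * g) 0 0‖ = 1 := by rw [h2]; simp
      rw [← h4, Matrix.mul_apply]
      refine (norm_sum_le _ _).trans (Finset.sum_le_sum fun j _ => ?_)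
      rw [norm_mul]
      exact mul_le_mul_of_nonneg_right (hQB g' hg' 0 j) (norm_nonneg _)
    have h5 : ∀ i, ((gᴴ * g) i i).re = ∑ k, ‖g k i‖ ^ 2 := by
      intro i
      rw [Matrix.mul_apply, Complex.re_sum]
      apply Finset.sum_congr rfl
      intro k _
      rw [conjTranspose_apply]
      have : star (g k i) * g k i = ((‖g k i‖ ^ 2 : ℝ) : ℂ) := by
        rw [mul_comm, Complex.ofReal_pow]
        exact Complex.mul_conj' (g k i)
      rw [this, Complex.ofReal_re]
    have h6 : ∑ k, ‖g k 0‖ ^ 2 ≤ ∑ i, ((gᴴ * g) i i).re := by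
      have h7 : ((gᴴ * g) 0 0).re ≤ ∑ i, ((gᴴ * g) i i).re :=
        Finset.single_le_sum (f := fun i => ((gᴴ * g) i i).re)
        (fun i _ => by
          change 0 ≤ ((gᴴ * g) i i).re
          rw [h5 i]
          positivity) (Finset.mem_univ (0 : Fin (n + 1)))
      rw [h5 0] at h7
      exact h7
    refine le_trans ?_ h6
    have h8 : (∑ j, ‖g j 0‖) ^ 2 ≤ (n + 1 : ℝ) * ∑ k, ‖g k 0‖ ^ 2 := by
      have := sq_sum_le_card_mul_sum_sq (s := (Finset.univ : Finset (Fin (n + 1))))
        (f := fun j => ‖g j 0‖)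
      simpa using this
    rw [← Finset.mul_sum] at h3
    have h9 : (1 : ℝ) ≤ (B * ∑ j, ‖g j 0‖) ^ 2 := by
      have : 0 ≤ ∑ j, ‖g j 0‖ := Finset.sum_nonneg fun _ _ => norm_nonneg _
      nlinarith
    rw [hc, div_le_iff₀ (by positivity)]
    calc (1 : ℝ) ≤ (B * ∑ j, ‖g j 0‖) ^ 2 := h9
      _ = B ^ 2 * (∑ j, ‖g j 0‖) ^ 2 := by ring
      _ ≤ B ^ 2 * ((n + 1 : ℝ) * ∑ k, ‖g k 0‖ ^ 2) := by
        exact mul_le_mul_of_nonneg_left h8 (by positivity)
      _ = _ := by ring
  set C : ℝ := ((n + 1 : ℝ) * ((n + 1 : ℝ) ^ 2 * B ^ 2)) with hC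
  set R0 : ℝ := C * ‖ofM (1 : M n)‖ with hR0
  let K0 : Set (E n) := {y | ‖y‖ ≤ R0 ∧ (∀ i, 0 ≤ (y (i, i)).re) ∧ c ≤ ∑ i, (y (i, i)).re}
  let K : Set (E n) := {x | ∀ g ∈ Q, L g x ∈ K0}
  have hcoord : ∀ i : Fin (n + 1), Continuous fun y : E n => (y (i, i)).re := by
    intro i
    exact Complex.continuous_re.comp (PiLp.continuous_apply 2 _ (i, i))
  have hK0c : IsClosed K0 := by
    have e1 : IsClosed {y : E n | ‖y‖ ≤ R0} := isClosed_le continuous_norm continuous_const
    have e2 : IsClosed {y : E n | ∀ i, 0 ≤ (y (i, i)).re} := by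
      rw [show {y : E n | ∀ i, 0 ≤ (y (i, i)).re} = ⋂ i, {y : E n | 0 ≤ (y (i, i)).re} by ext y; simp]
      exact isClosed_iInter fun i => isClosed_le continuous_const (hcoord i)
    have e3 : IsClosed {y : E n | c ≤ ∑ i, (y (i, i)).re} :=
      isClosed_le continuous_const (continuous_finsetSum _ fun i _ => hcoord i)
    exact e1.inter (e2.inter e3)
  have hK0v : Convex ℝ K0 := by
    intro x hx y hy a b ha hb hab
    refine ⟨?_, ?_, ?_⟩
    · calc ‖a • x + b • y‖ ≤ ‖a • x‖ + ‖b • y‖ := norm_add_le _ _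
        _ = a * ‖x‖ + b * ‖y‖ := by rw [norm_smul, norm_smul, Real.norm_of_nonneg ha,
            Real.norm_of_nonneg hb]
        _ ≤ a * R0 + b * R0 := by
            exact add_le_add (mul_le_mul_of_nonneg_left hx.1 ha) (mul_le_mul_of_nonneg_left hy.1 hb)
        _ = R0 := by rw [← add_mul, hab, one_mul]
    · intro i
      have : ((a • x + b • y) (i, i)).re = a * (x (i, i)).re + b * (y (i, i)).re := by
        simp
      rw [this]
      have h2 := hx.2.1 i
      have h3 := hy.2.1 i
      positivity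
    · have : ∀ i, ((a • x + b • y) (i, i)).re = a * (x (i, i)).re + b * (y (i, i)).re := by
        intro i
        simp
      simp only [this, Finset.sum_add_distrib, ← Finset.mul_sum]
      have h2 := hx.2.2
      have h3 := hy.2.2
      calc c = a * c + b * c := by rw [← add_mul, hab, one_mul]
        _ ≤ _ := add_le_add (mul_le_mul_of_nonneg_left h2 ha) (mul_le_mul_of_nonneg_left h3 hb)
  have hLc : ∀ g : M n, Continuous (L g) := fun g => (L g).continuous_of_finiteDimensional
  have hKc : IsClosed K := by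
    have : K = ⋂ g ∈ Q, (L g) ⁻¹' K0 := by
      ext x
      simp [K]
    rw [this]
    exact isClosed_biInter fun g _ => hK0c.preimage (hLc g)
  have hKv : Convex ℝ K := by
    intro x hx y hy a b ha hb hab g hg
    rw [map_add, map_smul, map_smul]
    exact hK0v (hx g hg) (hy g hg) ha hb hab
  have hKb : Bornology.IsBounded K := by
    refine (Metric.isBounded_iff_subset_closedBall (0 : E n)).2 ⟨R0, fun x hx => ?_⟩
    have h2 := (hx 1 h1).1
    rw [L_one] at h2
    simpa using h2
  have hKcomp : IsCompact K := Metric.isCompact_of_isClosed_isBounded hKc hKb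
  have hone : ofM (1 : M n) ∈ K := by
    intro g hg
    refine ⟨L_bdd B hB g (hQB g hg) _, ?_, ?_⟩
    · intro i
      have : L g (ofM 1) (i, i) = (gᴴ * g) i i := by
        rw [L_apply, toM_ofM, mul_one, ofM_apply]
      rw [this, Matrix.mul_apply, Complex.re_sum]
      refine Finset.sum_nonneg ?_
      intro k _
      rw [conjTranspose_apply]
      have : star (g k i) * g k i = ((‖g k i‖ ^ 2 : ℝ) : ℂ) := by
        rw [mul_comm, Complex.ofReal_pow]
        exact Complex.mul_conj' (g k i)
      rw [this, Complex.ofReal_re]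
      positivity
    · have : ∀ i, L g (ofM 1) (i, i) = (gᴴ * g) i i := by
        intro i
        rw [L_apply, toM_ofM, mul_one, ofM_apply]
      simp only [this]
      exact hlow g hg
  obtain ⟨z, hzK, hz⟩ := hFP (E n) (L '' Q) K C
    (by
      rintro _ ⟨g, hg, rfl⟩ _ ⟨g', hg', rfl⟩
      refine ⟨g' * g, hm g' hg' g hg, ?_⟩
      apply LinearMap.ext
      intro x
      rw [LinearMap.comp_apply, L_L])
    (by
      rintro _ ⟨g, hg, rfl⟩
      obtain ⟨g', hg', hgg', hg'g⟩ := hinv g hg
      refine ⟨L g', ⟨g', hg', rfl⟩, fun x => ?_⟩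
      rw [L_L, hgg', L_one])
    (by
      rintro _ ⟨g, hg, rfl⟩ x
      exact L_bdd B hB g (hQB g hg) x)
    hKcomp hKv ⟨_, hone⟩
    (by
      rintro _ ⟨g, hg, rfl⟩ x hx h hh
      rw [L_L]
      exact hx _ (hm g hg h hh))
  set P : M n := toM z with hP
  have hPg : ∀ g ∈ Q, gᴴ * P * g = P := by
    intro g hg
    have h2 := hz (L g) ⟨g, hg, rfl⟩
    rw [L_apply] at h2
    have h3 := congrArg toM h2
    rw [toM_ofM] at h3
    exact h3
  have hcomm : ∀ g ∈ Q, (S n * P) * g = g * (S n * P) := by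
    intro g hg
    obtain ⟨g', hg', hgg', hg'g⟩ := hinv g hg
    have e0 : g'ᴴ * gᴴ = 1 := by rw [← conjTranspose_mul, hgg', conjTranspose_one]
    have e1 : P * g = g'ᴴ * P := by
      calc P * g = (g'ᴴ * gᴴ) * (P * g) := by rw [e0, one_mul]
        _ = g'ᴴ * (gᴴ * P * g) := by simp only [Matrix.mul_assoc]
        _ = g'ᴴ * P := by rw [hPg g hg]
    have e2 : S n * g = g'ᴴ * S n := by
      calc S n * g = (g'ᴴ * gᴴ) * (S n * g) := by rw [e0, one_mul]
        _ = g'ᴴ * (gᴴ * S n * g) := by simp only [Matrix.mul_assoc]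
        _ = g'ᴴ * S n := by rw [isU_matrix (hU g hg)]
    have e3 : g'ᴴ = S n * g * S n := by
      rw [e2, Matrix.mul_assoc, S_sq, mul_one]
    calc (S n * P) * g = S n * (P * g) := Matrix.mul_assoc _ _ _
      _ = S n * (S n * g * S n * P) := by rw [e1, e3]
      _ = (S n * S n) * (g * (S n * P)) := by simp only [Matrix.mul_assoc]
      _ = g * (S n * P) := by rw [S_sq, one_mul]
  obtain ⟨t, ht⟩ := schur hI _ hcomm
  have hPt : P = t • S n := by
    calc P = (S n * S n) * P := by rw [S_sq, one_mul]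
      _ = S n * (S n * P) := Matrix.mul_assoc _ _ _
      _ = t • S n := by rw [ht, mul_smul_comm, mul_one]
  have hz0 : ∀ i, z (i, i) = P i i := fun i => rfl
  have hzz := hzK 1 h1
  rw [L_one] at hzz
  obtain ⟨m, rfl⟩ : ∃ m, n = m + 1 := ⟨n - 1, by omega⟩
  have hd0 : P 0 0 = t := by
    rw [hPt]
    simp [S]
  have hd1 : ∀ i : Fin (m + 1), P i.succ i.succ = -t := by
    intro i
    rw [hPt]
    simp [S]
  have g0 := hzz.2.1 0
  have g1 := hzz.2.1 (Fin.succ 0)
  rw [hz0, hd0] at g0
  rw [hz0, hd1] at g1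
  have ht0 : t.re = 0 := by
    have : (-t).re = -t.re := rfl
    rw [this] at g1
    linarith
  have g2 := hzz.2.2
  rw [Fin.sum_univ_succ] at g2
  simp only [hz0, hd0, hd1, Complex.neg_re, ht0, neg_zero, Finset.sum_const_zero, add_zero] at g2
  linarith

end Pool.Agent.N55.BTTR
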