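import Pool.Agent.N367.LE.Stm

/-! G3: the symbol of the two prime factors (helper55, project LE of helper367). -/

namespace Pool.Agent.N55.LEG3

open H419R2 Pool.Agent.N911 Pool.Agent.N367.LE

theorem g3 : S_GU → S_GR → S_G2 → S_G3 := by
  intro hGU hGR hG2 n p q hn hp hq hpq hp4 hq4 hD hH
  have hded : IsDedekindDomain (QA 1 (n : ℤ)) := hH.ded
  have hdom : IsDomain (QA 1 (n : ℤ)) := inferInstance
  have hcop : Nat.Coprime p q := (Nat.coprime_primes hp hq).2 hpq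
  have hsq : Squarefree (n ^ 2 + 4) := by
    rw [hD, Nat.squarefree_mul hcop]
    exact ⟨hp.squarefree, hq.squarefree⟩
  have hq2 : q ≠ 2 := by
    rintro rfl
    omega
  have hqD : q ∣ n ^ 2 + 4 := by rw [hD]; exact dvd_mul_left q p
  obtain ⟨Q, hQ1, hQ2⟩ := (hGR n hn q hq hq2).2 hsq hqD
  have hlt : q < n ^ 2 + 4 := by
    rw [hD]
    calc q = 1 * q := (one_mul q).symm
      _ < p * q := Nat.mul_lt_mul_of_pos_right hp.one_lt hq.pos
  have hnp : ¬ Q.IsPrincipal := hGU n hn hsq hdom q hqD hq.one_lt hlt Q hQ2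
  have hQ0 : Q ≠ ⊥ := by
    intro h
    apply hnp
    rw [h]
    exact bot_isPrincipal
  have hnd : ¬ p ∣ Ideal.absNorm Q := by
    rw [hQ1]
    intro h
    exact hpq ((Nat.prime_dvd_prime_iff_eq hp hq).1 h)
  have h1 := hG2 n p q hn hp hq hpq hp4 hq4 hD hH Q hQ0 hnd
  rw [hQ1] at h1
  have h2 : jacobiSym (q : ℤ) p ≠ 1 := fun h => hnp (h1.2 h)
  have h3 : jacobiSym (p : ℤ) q = jacobiSym (q : ℤ) p :=
    jacobiSym.quadratic_reciprocity_one_mod_four hp4 (hq.odd_of_ne_two hq2)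
  have h4 : Int.gcd (q : ℤ) p = 1 := by
    rw [Int.gcd_natCast_natCast]
    exact hcop.symm
  rcases jacobiSym.eq_one_or_neg_one h4 with h5 | h5
  · exact absurd h5 h2
  · rw [h3, h5]

end Pool.Agent.N55.LEG3
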