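import Mathlib
import Pool.Agent.N378.KH.Stm2

set_option autoImplicit false

/-! Project KH (helper378), leaf KS: a set cut off by a half-space is, up to points on the
boundary, cut off by a half-space with `m + 1` of the points on its boundary. -/

namespace Pool.Agent.N55.KH

open Pool.Agent.N378.KH Finset

/-- `c - u · x_i` as a linear function of `(u, c)` -/
noncomputable def L {n m : ℕ} (x : Fin n → Fin (m + 1) → ℝ) (i : Fin n) :
    ((Fin (m + 1) → ℝ) × ℝ) →ₗ[ℝ] ℝ where
  toFun v := v.2 - ∑ j, v.1 j * x i j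
  map_add' v w := by
    simp only [Prod.fst_add, Prod.snd_add, Pi.add_apply, add_mul, Finset.sum_add_distrib]
    ring
  map_smul' r v := by
    simp only [Prod.smul_fst, Prod.smul_snd, Pi.smul_apply, smul_eq_mul, RingHom.id_apply,
      mul_sub, Finset.mul_sum, mul_assoc]

theorem L_apply {n m : ℕ} (x : Fin n → Fin (m + 1) → ℝ) (i : Fin n)
    (v : (Fin (m + 1) → ℝ) × ℝ) : L x i v = v.2 - ∑ j, v.1 j * x i j := rfl

theorem exists_indep {n m : ℕ} (x : Fin n → Fin (m + 1) → ℝ) (Z : Finset (Fin n))
    (hZ : Z.card ≤ m) (v : (Fin (m + 1) → ℝ) × ℝ) :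
    ∃ w : (Fin (m + 1) → ℝ) × ℝ, (∀ i ∈ Z, L x i w = 0) ∧ w ∉ Submodule.span ℝ {v} := by
  let Φ : ((Fin (m + 1) → ℝ) × ℝ) →ₗ[ℝ] (Z → ℝ) := LinearMap.pi fun i : Z => L x i
  have h1 := LinearMap.finrank_range_add_finrank_ker Φ
  have h2 : Module.finrank ℝ (LinearMap.range Φ) ≤ Z.card := by
    have := Submodule.finrank_le (LinearMap.range Φ)
    rwa [Module.finrank_fintype_fun_eq_card, Fintype.card_coe] at this
  have h3 : Module.finrank ℝ ((Fin (m + 1) → ℝ) × ℝ) = m + 2 := by
    rw [Module.finrank_prod, Module.finrank_fintype_fun_eq_card, Fintype.card_fin,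
      Module.finrank_self]
  have h4 : ¬ LinearMap.ker Φ ≤ Submodule.span ℝ {v} := by
    intro h
    have h5 := Submodule.finrank_mono h
    have h6 : Module.finrank ℝ (Submodule.span ℝ {v}) ≤ 1 := by
      have := finrank_span_le_card (R := ℝ) ({v} : Set ((Fin (m + 1) → ℝ) × ℝ))
      simpa using this
    omega
  obtain ⟨w, hw1, hw2⟩ := SetLike.not_le_iff_exists.1 h4
  refine ⟨w, fun i hi => ?_, hw2⟩
  have := congrFun (LinearMap.mem_ker.1 hw1) ⟨i, hi⟩
  exact this

theorem t_KS : S_KS := by
  classical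
  intro n m x hn hG S hS1 hS2 hsep
  let σ : Fin n → ℝ := fun i => if i ∈ S then 1 else -1
  have hσ : ∀ i, σ i ≠ 0 := by
    intro i
    simp only [σ]
    split_ifs <;> norm_num
  let s : Fin n → ((Fin (m + 1) → ℝ) × ℝ) → ℝ := fun i v => σ i * L x i v
  have sS : ∀ i v, i ∈ S → s i v = v.2 - ∑ j, v.1 j * x i j := by
    intro i v hi
    simp only [s, σ, if_pos hi, one_mul, L_apply]
  have sN : ∀ i v, i ∉ S → s i v = (∑ j, v.1 j * x i j) - v.2 := by
    intro i v hi
    simp only [s, σ, if_neg hi, L_apply]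
    ring
  have hs0 : ∀ i v, s i v = 0 ↔ L x i v = 0 := by
    intro i v
    simp only [s, mul_eq_zero, or_iff_right (hσ i)]
  have hadd : ∀ i v w (t : ℝ), s i (v + t • w) = s i v + t * s i w := by
    intro i v w t
    simp only [s, map_add, map_smul, smul_eq_mul]
    ring
  let Zs : ((Fin (m + 1) → ℝ) × ℝ) → Finset (Fin n) :=
    fun v => Finset.univ.filter fun i => L x i v = 0
  have hZs : ∀ v i, i ∈ Zs v ↔ L x i v = 0 := fun v i => by simp [Zs]
  -- nonzero admissible vectors have a nonzero normal vector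
  have hu : ∀ v : (Fin (m + 1) → ℝ) × ℝ, v ≠ 0 → (∀ i, 0 ≤ s i v) → v.1 ≠ 0 := by
    intro v hv ha h0
    apply hv
    obtain ⟨i, hi⟩ := hS1
    have hex : ∃ i', i' ∉ S := by
      by_contra h
      push Not at h
      exact hS2 (Finset.eq_univ_iff_forall.2 h)
    obtain ⟨i', hi'⟩ := hex
    have h1 := ha i
    have h2 := ha i'
    rw [sS i v hi, h0] at h1
    rw [sN i' v hi', h0] at h2
    simp only [Pi.zero_apply, zero_mul, Finset.sum_const_zero] at h1 h2
    ext1
    · exact h0
    · show v.2 = 0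
      linarith
  let F : Set (Finset (Fin n)) := {Z | ∃ v : (Fin (m + 1) → ℝ) × ℝ, v ≠ 0 ∧
    (∀ i, 0 ≤ s i v) ∧ Zs v = Z}
  have hF : F.Nonempty := by
    obtain ⟨u, c, huc⟩ := hsep
    have hmem : ∀ i, i ∈ S ↔ ∑ j, u j * x i j < c := by
      intro i
      rw [huc]
      simp
    refine ⟨Zs (u, c), (u, c), ?_, ?_, rfl⟩
    · intro h0
      obtain ⟨i, hi⟩ := hS1
      have h1 := (hmem i).1 hi
      have h2 : u = 0 := congrArg Prod.fst h0
      have h3 : c = 0 := congrArg Prod.snd h0
      rw [h2, h3] at h1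
      simp at h1
    · intro i
      by_cases hi : i ∈ S
      · rw [sS i _ hi]
        have := (hmem i).1 hi
        show 0 ≤ c - ∑ j, u j * x i j
        linarith
      · rw [sN i _ hi]
        have : ¬ ∑ j, u j * x i j < c := fun h => hi ((hmem i).2 h)
        show 0 ≤ (∑ j, u j * x i j) - c
        linarith [not_lt.1 this]
  obtain ⟨Z, ⟨v, hv0, hva, hvZ⟩, hmax⟩ := Set.exists_max_image F Finset.card (Set.toFinite _) hF
  have hmax' : ∀ w : (Fin (m + 1) → ℝ) × ℝ, w ≠ 0 → (∀ i, 0 ≤ s i w) →
      (Zs w).card ≤ Z.card := fun w hw hwa => hmax (Zs w) ⟨w, hw, hwa, rfl⟩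
  -- at least `m + 1` tight indices
  have hge : m + 1 ≤ Z.card := by
    by_contra hlt
    obtain ⟨w0, hw1, hw2⟩ := exists_indep x Z (by omega) v
    have hw0 : w0 ≠ 0 := fun h => hw2 (h ▸ Submodule.zero_mem _)
    -- some slope is negative, after a change of sign
    have hex : ∃ w : (Fin (m + 1) → ℝ) × ℝ, (∀ i ∈ Z, L x i w = 0) ∧
        w ∉ Submodule.span ℝ {v} ∧ ∃ i, s i w < 0 := by
      by_cases h1 : ∃ i, s i w0 < 0
      · exact ⟨w0, hw1, hw2, h1⟩
      · push Not at h1
        refine ⟨-w0, fun i hi => by rw [map_neg, hw1 i hi, neg_zero],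
          fun h => hw2 (by simpa using Submodule.neg_mem _ h), ?_⟩
        by_contra h2
        push Not at h2
        have h3 : ∀ i, s i w0 = 0 := by
          intro i
          have e1 := h1 i
          have e2 := h2 i
          have e3 : s i (-w0) = - s i w0 := by
            simp only [s, map_neg]
            ring
          rw [e3] at e2
          linarith
        have h4 := hmax' w0 hw0 h1
        have h5 : Zs w0 = Finset.univ :=
          Finset.eq_univ_iff_forall.2 fun i => (hZs w0 i).2 ((hs0 i w0).1 (h3 i))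
        rw [h5, Finset.card_univ, Fintype.card_fin] at h4
        omega
    obtain ⟨w, hwZ, hwv, i1, hi1⟩ := hex
    let B : Finset (Fin n) := Finset.univ.filter fun i => s i w < 0
    have hB : ∀ i, i ∈ B ↔ s i w < 0 := fun i => by simp [B]
    obtain ⟨i0, hi0, hmin⟩ := Finset.exists_min_image B (fun i => s i v / (- s i w))
      ⟨i1, (hB i1).2 hi1⟩
    have hneg : s i0 w < 0 := (hB i0).1 hi0
    have hnZ : i0 ∉ Z := fun h => by
      have := (hs0 i0 w).2 (hwZ i0 h)
      linarith
    have hpos : 0 < s i0 v := by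
      rcases (hva i0).lt_or_eq with h | h
      · exact h
      · exfalso
        apply hnZ
        rw [← hvZ, hZs]
        exact (hs0 i0 v).1 h.symm
    let t : ℝ := s i0 v / (- s i0 w)
    have ht : 0 < t := div_pos hpos (by linarith)
    have hw' : v + t • w ≠ 0 := by
      intro h
      apply hwv
      have h1 : w = (-t⁻¹) • v := by
        have h2 : t • w = -v := by
          rw [eq_neg_iff_add_eq_zero]
          exact (add_comm (t • w) v).trans h
        calc w = t⁻¹ • (t • w) := by rw [smul_smul, inv_mul_cancel₀ ht.ne', one_smul]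
          _ = (-t⁻¹) • v := by rw [h2, smul_neg, neg_smul]
      rw [h1]
      exact Submodule.smul_mem _ _ (Submodule.mem_span_singleton_self v)
    have hadm : ∀ i, 0 ≤ s i (v + t • w) := by
      intro i
      rw [hadd]
      by_cases hi : i ∈ B
      · have h1 : t ≤ s i v / (- s i w) := hmin i hi
        have h2 : 0 < - s i w := by
          have := (hB i).1 hi
          linarith
        rw [le_div_iff₀ h2] at h1
        linarith
      · have h1 : 0 ≤ s i w := by
          by_contra h
          exact hi ((hB i).2 (not_le.1 h))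
        have := mul_nonneg ht.le h1
        linarith [hva i]
    have h6 := hmax' _ hw' hadm
    have h7 : insert i0 Z ⊆ Zs (v + t • w) := by
      intro i hi
      rw [hZs, ← hs0, hadd]
      rcases Finset.mem_insert.1 hi with h | h
      · rw [h]
        have h8 : t * (- s i0 w) = s i0 v := div_mul_cancel₀ _ (by linarith)
        linarith
      · have e1 : s i v = 0 := (hs0 i v).2 ((hZs v i).1 (hvZ.symm ▸ h))
        have e2 : s i w = 0 := (hs0 i w).2 (hwZ i h)
        rw [e1, e2, mul_zero, add_zero]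
    have h9 := Finset.card_le_card h7
    rw [Finset.card_insert_of_notMem hnZ] at h9
    omega
  -- at most `m + 1` tight indices
  have htight : ∀ i ∈ Z, ∑ j, v.1 j * x i j = v.2 := by
    intro i hi
    have := (hZs v i).1 (hvZ.symm ▸ hi)
    rw [L_apply] at this
    linarith
  have hle : Z.card ≤ m + 1 := by
    by_contra hlt
    obtain ⟨T, hT1, hT2⟩ := Finset.exists_subset_card_eq (show m + 2 ≤ Z.card by omega)
    exact hG T hT2 ⟨v.1, v.2, hu v hv0 hva, fun i hi => htight i (hT1 hi)⟩
  have hstrict : ∀ i ∉ Z, 0 < s i v := by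
    intro i hi
    rcases (hva i).lt_or_eq with h | h
    · exact h
    · exfalso
      apply hi
      rw [← hvZ, hZs]
      exact (hs0 i v).1 h.symm
  refine ⟨Z, v.1, v.2, by omega, hu v hv0 hva, htight, fun i hi hiZ => ?_, fun i hi hiZ => ?_⟩
  · have := hstrict i hiZ
    rw [sS i v hi] at this
    linarith
  · have := hstrict i hiZ
    rw [sN i v hi] at this
    linarith

end Pool.Agent.N55.KH
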