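import Pool.Agent.N91.LC.Path

/-!
# LC/RUN: the optimal run of the Christian (project of helper91)
-/

set_option autoImplicit false

namespace Pool.Agent.N55.LCRUN

open Real Pool.Agent.N91.LC

/-- the level at time `t` -/
noncomputable def lv (t : ℝ) : ℝ := GG * exp (-t)

/-- the planar distance to go at time `t` -/
noncomputable def dd (D0 t : ℝ) : ℝ := D0 + log (A GG) - t - log (A (lv t))

theorem lv_nonneg (t : ℝ) : 0 ≤ lv t := mul_nonneg GG_pos.le (exp_pos _).le

theorem lv_le {t : ℝ} (ht : 0 ≤ t) : lv t ≤ GG := by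
  unfold lv
  have h : exp (-t) ≤ 1 := exp_le_one_iff.2 (by linarith)
  have := GG_pos
  nlinarith

theorem lv_shift (s t : ℝ) : lv s = exp (t - s) * lv t := by
  unfold lv
  rw [mul_left_comm, ← exp_add]
  congr 2
  ring

theorem exp_dd (D0 t : ℝ) : exp (dd D0 t) * A (lv t) = exp D0 * A GG * exp (-t) := by
  unfold dd
  have h1 := A_pos (lv t)
  have h2 := A_pos GG
  rw [exp_sub, exp_log h1, div_mul_cancel₀ _ h1.ne', exp_sub, exp_add, exp_log h2, exp_neg,
    div_eq_mul_inv]

theorem dd_arg {D0 : ℝ} (hD0 : 0 ≤ D0) (t : ℝ) :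
    (1 + lv t ^ 2) * exp (2 * dd D0 t) - lv t ^ 2 = exp (2 * (th GG D0 - t)) := by
  have h1 := exp_dd D0 t
  have h2 : (1 + lv t ^ 2) * exp (2 * dd D0 t) = (exp (dd D0 t) * A (lv t)) ^ 2 := by
    rw [mul_pow, A_sq, ← exp_nat_mul]
    push_cast
    ring
  have h3 : exp (2 * (th GG D0 - t)) = exp (2 * th GG D0) * exp (-t) ^ 2 := by
    rw [← exp_nat_mul, ← exp_add]
    congr 1
    push_cast
    ring
  have h4 : exp D0 ^ 2 = exp (2 * D0) := by
    rw [← exp_nat_mul]
    norm_num
  rw [h2, h1, h3, exp_th hD0, mul_pow, mul_pow, A_sq, h4, lv]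
  ring

theorem th_dd {D0 : ℝ} (hD0 : 0 ≤ D0) (t : ℝ) : th (lv t) (dd D0 t) = th GG D0 - t := by
  have h : th (lv t) (dd D0 t) =
      (1 / 2) * log ((1 + lv t ^ 2) * exp (2 * dd D0 t) - lv t ^ 2) := rfl
  rw [h, dd_arg hD0, log_exp]
  ring

theorem dd_nonneg {D0 : ℝ} (hD0 : 0 ≤ D0) {t : ℝ} (ht : t ≤ th GG D0) : 0 ≤ dd D0 t := by
  have h1 := dd_arg hD0 t
  have h2 : 1 ≤ exp (2 * (th GG D0 - t)) := one_le_exp (by linarith)
  have h3 : 1 ≤ exp (2 * dd D0 t) := by
    by_contra hcon
    push Not at hcon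
    nlinarith [sq_nonneg (lv t)]
  have h4 := (one_le_exp_iff).1 h3
  linarith

theorem dd_T {D0 : ℝ} (hD0 : 0 ≤ D0) : dd D0 (th GG D0) = 0 := by
  have h1 := dd_arg hD0 (th GG D0)
  rw [sub_self, mul_zero, exp_zero] at h1
  have h2 : (1 + lv (th GG D0) ^ 2) * exp (2 * dd D0 (th GG D0)) =
      (1 + lv (th GG D0) ^ 2) * 1 := by linarith
  have h3 := mul_left_cancel₀ (by positivity) h2
  have h4 := (exp_eq_one_iff _).1 h3
  linarith

theorem dd_zero (D0 : ℝ) : dd D0 0 = D0 := by
  unfold dd lv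
  rw [neg_zero, exp_zero, mul_one]
  ring

theorem dd_anti (D0 : ℝ) {s t : ℝ} (hst : s ≤ t) : dd D0 t ≤ dd D0 s := by
  have h1 : A (lv s) ≤ A (lv t) * exp (t - s) := by
    have h2 : A (lv s) ^ 2 ≤ (A (lv t) * exp (t - s)) ^ 2 := by
      rw [mul_pow, A_sq, A_sq, lv_shift s t]
      have h3 : 1 ≤ exp (t - s) := one_le_exp (by linarith)
      nlinarith
    exact (pow_le_pow_iff_left₀ (A_pos _).le (by have := A_pos (lv t); positivity)
      two_ne_zero).1 h2
  have h2 := log_le_log (A_pos _) h1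
  rw [log_mul (A_pos _).ne' (exp_pos _).ne', log_exp] at h2
  unfold dd
  linarith

/-- the position at time `t` -/
noncomputable def ps (D0 σ pj t : ℝ) : Pt :=
  ⟨ell - min (dd D0 t) ell, pj + σ * max 0 (dd D0 t - ell), lv t⟩

theorem ps_sd (D0 pj : ℝ) {σ : ℝ} (hσ : |σ| ≤ 1) {s t : ℝ} (hst : s ≤ t) :
    sd (ps D0 σ pj s) (ps D0 σ pj t) ≤ dd D0 s - dd D0 t := by
  have h := dd_anti D0 hst
  show |(ell - min (dd D0 s) ell) - (ell - min (dd D0 t) ell)| +
    |(pj + σ * max 0 (dd D0 s - ell)) - (pj + σ * max 0 (dd D0 t - ell))| ≤ _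
  have e1 : (ell - min (dd D0 s) ell) - (ell - min (dd D0 t) ell) =
      -(min (dd D0 s) ell - min (dd D0 t) ell) := by ring
  have e2 : (pj + σ * max 0 (dd D0 s - ell)) - (pj + σ * max 0 (dd D0 t - ell)) =
      σ * (max 0 (dd D0 s - ell) - max 0 (dd D0 t - ell)) := by ring
  have h1 : min (dd D0 t) ell ≤ min (dd D0 s) ell := min_le_min_right _ h
  have h2 : max 0 (dd D0 t - ell) ≤ max 0 (dd D0 s - ell) := max_le_max_left _ (by linarith)
  rw [e1, e2, abs_neg, abs_mul, abs_of_nonneg (by linarith), abs_of_nonneg (by linarith :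
    0 ≤ max 0 (dd D0 s - ell) - max 0 (dd D0 t - ell))]
  have h3 : |σ| * (max 0 (dd D0 s - ell) - max 0 (dd D0 t - ell)) ≤
      max 0 (dd D0 s - ell) - max 0 (dd D0 t - ell) := by nlinarith
  have h4 : ∀ a : ℝ, min a ell + max 0 (a - ell) = a := by
    intro a
    rcases le_total a ell with h5 | h5
    · rw [min_eq_left h5, max_eq_left (by linarith)]
      ring
    · rw [min_eq_right h5, max_eq_right (by linarith)]
      ring
  have h5 := h4 (dd D0 s)
  have h6 := h4 (dd D0 t)
  linarith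

theorem ps_strip (D0 pj : ℝ) {σ : ℝ} (hσ : |σ| ≤ 1) {s t : ℝ} (hst : s ≤ t) :
    Strip (ps D0 σ pj s) (ps D0 σ pj t) (t - s) := by
  have hsd := ps_sd D0 pj hσ hst
  have hA1 := A_pos (lv s)
  have hA2 := A_pos (lv t)
  have he : 1 ≤ exp (t - s) := one_le_exp (by linarith)
  refine ⟨?_, ?_, ?_⟩
  · show lv s ≤ exp (t - s) * lv t
    rw [lv_shift s t]
  · show lv t ≤ exp (t - s) * lv s
    rw [lv_shift s t]
    have := lv_nonneg t
    have h2 : 1 ≤ exp (t - s) * exp (t - s) := by nlinarith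
    rw [← mul_assoc]
    nlinarith
  · show A (lv s) * A (lv t) * exp (sd (ps D0 σ pj s) (ps D0 σ pj t)) - lv s * lv t ≤ exp (t - s)
    have h1 : exp (sd (ps D0 σ pj s) (ps D0 σ pj t)) ≤ exp (dd D0 s - dd D0 t) := exp_le_exp.2 hsd
    have h2 : A (lv s) * exp (dd D0 s - dd D0 t) = exp (t - s) * A (lv t) := by
      have h3 := exp_dd D0 s
      have h4 := exp_dd D0 t
      have h5 : exp (-s) = exp (t - s) * exp (-t) := by
        rw [← exp_add]
        congr 1
        ring
      rw [exp_sub]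
      have h6 : A (lv s) * (exp (dd D0 s) / exp (dd D0 t)) = (exp (dd D0 s) * A (lv s)) /
          exp (dd D0 t) := by ring
      rw [h6, div_eq_iff (exp_pos _).ne', h3, h5]
      have h7 : exp D0 * A GG * (exp (t - s) * exp (-t)) = exp (t - s) * (exp D0 * A GG * exp (-t)) :=
        by ring
      rw [h7, ← h4]
      ring
    have h3 : A (lv s) * A (lv t) * exp (dd D0 s - dd D0 t) = exp (t - s) * (1 + lv t ^ 2) := by
      calc A (lv s) * A (lv t) * exp (dd D0 s - dd D0 t)
          = A (lv t) * (A (lv s) * exp (dd D0 s - dd D0 t)) := by ring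
        _ = A (lv t) * (exp (t - s) * A (lv t)) := by rw [h2]
        _ = exp (t - s) * A (lv t) ^ 2 := by ring
        _ = _ := by rw [A_sq]
    have h4 : A (lv s) * A (lv t) * exp (sd (ps D0 σ pj s) (ps D0 σ pj t)) ≤
        A (lv s) * A (lv t) * exp (dd D0 s - dd D0 t) :=
      mul_le_mul_of_nonneg_left h1 (by positivity)
    have h5 : lv s * lv t = exp (t - s) * lv t ^ 2 := by
      rw [lv_shift s t]
      ring
    rw [h5]
    linarith

theorem run : S_RUN := by
  intro n j
  obtain ⟨D0, hD0⟩ : ∃ D0, D0 = ell + |pp n - pp j| := ⟨_, rfl⟩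
  have hD0n : 0 ≤ D0 := by rw [hD0]; have := ell_pos; positivity
  have hD0e : ell ≤ D0 := by rw [hD0]; linarith [abs_nonneg (pp n - pp j)]
  obtain ⟨T, hT⟩ : ∃ T, T = th GG D0 := ⟨_, rfl⟩
  have hTT : TT n j = T := by rw [hT, hD0]; rfl
  have hT0 : 0 ≤ T := by rw [hT]; exact th_nonneg hD0n
  obtain ⟨σ, hσ⟩ : ∃ σ : ℝ, |σ| ≤ 1 ∧ σ * |pp n - pp j| = pp n - pp j := by
    rcases le_total (pp j) (pp n) with h | h
    · refine ⟨1, by norm_num, ?_⟩
      rw [abs_of_nonneg (by linarith), one_mul]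
    · refine ⟨-1, by norm_num, ?_⟩
      rw [abs_of_nonpos (by linarith)]
      ring
  obtain ⟨hσ1, hσ2⟩ := hσ
  have hell := ell_pos
  -- the points are ok
  have hdd0 : ∀ t, 0 ≤ t → dd D0 t ≤ D0 := by
    intro t ht
    have := dd_anti D0 ht
    rwa [dd_zero] at this
  have hok : ∀ t, 0 ≤ t → t ≤ T → (ps D0 σ (pp j) t).ok := by
    intro t ht htT
    have h1 : 0 ≤ dd D0 t := dd_nonneg hD0n (by rw [← hT]; exact htT)
    have h2 := hdd0 t ht
    have h3 : 0 ≤ max 0 (dd D0 t - ell) := le_max_left _ _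
    have h4 : max 0 (dd D0 t - ell) ≤ |pp n - pp j| :=
      max_le (abs_nonneg _) (by linarith)
    have h5 : 0 ≤ pp j + σ * max 0 (dd D0 t - ell) ∧
        pp j + σ * max 0 (dd D0 t - ell) ≤ p0 := by
      have hpn := pp_pos n
      have hpj := pp_pos j
      have hpn1 := pp_le n
      have hpj1 := pp_le j
      obtain ⟨h6, h7⟩ := abs_le.1 hσ1
      have h8 : |pp n - pp j| = 0 ∨ 0 < |pp n - pp j| := by
        rcases (abs_nonneg (pp n - pp j)).lt_or_eq with h | h
        · exact Or.inr h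
        · exact Or.inl h.symm
      rcases h8 with h8 | h8
      · have h9 : max 0 (dd D0 t - ell) = 0 := le_antisymm (by rw [h8] at h4; exact h4) h3
        rw [h9, mul_zero, add_zero]
        exact ⟨hpj.le, hpj1⟩
      · -- convex combination
        have h9 : σ * max 0 (dd D0 t - ell) =
            (max 0 (dd D0 t - ell) / |pp n - pp j|) * (pp n - pp j) := by
          rw [div_mul_eq_mul_div, eq_div_iff h8.ne']
          linear_combination (max 0 (dd D0 t - ell)) * hσ2
        have h10 : 0 ≤ max 0 (dd D0 t - ell) / |pp n - pp j| := by positivity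
        have h11 : max 0 (dd D0 t - ell) / |pp n - pp j| ≤ 1 := by
          rw [div_le_one h8]
          exact h4
        rw [h9]
        constructor <;> nlinarith
    refine ⟨?_, ?_, h5.1, h5.2, lv_nonneg t, lv_le ht, ?_⟩
    · show 0 ≤ ell - min (dd D0 t) ell
      linarith [min_le_right (dd D0 t) ell]
    · show ell - min (dd D0 t) ell ≤ ell
      linarith [le_min h1 hell.le]
    · rcases le_total (dd D0 t) ell with h6 | h6
      · right; right
        refine ⟨j, ?_⟩
        show pp j + σ * max 0 (dd D0 t - ell) = pp j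
        rw [max_eq_left (by linarith), mul_zero, add_zero]
      · left
        show ell - min (dd D0 t) ell = 0
        rw [min_eq_right h6, sub_self]
  obtain ⟨c, hc⟩ : ∃ c : ℝ → X, c = fun t => pt (ps D0 σ (pp j) t).b (ps D0 σ (pp j) t).v
    (ps D0 σ (pp j) t).g := ⟨_, rfl⟩
  have hceq : ∀ t, ∀ h : 0 ≤ t, ∀ h' : t ≤ T, c t = mkc (ps D0 σ (pp j) t) (hok t h h') := by
    intro t h h'
    rw [hc]
    exact pt_eq (hok t h h')
  have hpath : Pth (fun t => c (min t T)) := by
    refine pth_of_on fun s t hs hst htT => ?_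
    rw [hceq s hs (hst.trans htT), hceq t (hs.trans hst) htT]
    exact mkc_dist_le _ _ (Or.inl (Or.inl (ps_strip D0 (pp j) hσ1 hst)))
  have hcT : dist (c (min T T)) (ray j 0) = 0 := by
    rw [min_self, hceq T hT0 le_rfl]
    have h1 : dist (mkc (ps D0 σ (pp j) T) (hok T hT0 le_rfl)) (mkc (en j) (en_ok j)) ≤ 0 := by
      apply mkc_dist_le
      left; right; right
      have hdT : dd D0 T = 0 := by rw [hT]; exact dd_T hD0n
      show th (lv T) (ell - (ell - min (dd D0 T) ell)) + th 0 (ell - ell) +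
        |pp j + σ * max 0 (dd D0 T - ell) - pp j| ≤ 0
      rw [hdT, min_eq_left hell.le, max_eq_left (by linarith), mul_zero, add_zero, sub_self,
        sub_self, abs_zero, sub_zero, sub_self, th_zero_right, th_zero_right]
      norm_num
    have h2 := ray_zero_dist j
    have h3 := dist_triangle (mkc (ps D0 σ (pp j) T) (hok T hT0 le_rfl)) (mkc (en j) (en_ok j))
      (ray j 0)
    exact le_antisymm (by linarith) dist_nonneg
  refine ⟨fun t => if t ≤ T then c (min t T) else ray j (t - T),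
    glue_pth hT0 hpath (ray_pth j) hcT, ?_, ?_, ?_⟩
  · show dist (if (0:ℝ) ≤ T then c (min 0 T) else ray j (0 - T)) (pt 0 (pp n) GG) = 0
    rw [if_pos hT0, min_eq_left hT0, hc]
    have e1 : (ps D0 σ (pp j) 0).b = 0 := by
      show ell - min (dd D0 0) ell = 0
      rw [dd_zero, min_eq_right hD0e, sub_self]
    have e2 : (ps D0 σ (pp j) 0).v = pp n := by
      show pp j + σ * max 0 (dd D0 0 - ell) = pp n
      rw [dd_zero, max_eq_right (by linarith), hD0, add_sub_cancel_left, hσ2]
      ring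
    have e3 : (ps D0 σ (pp j) 0).g = GG := by
      show lv 0 = GG
      unfold lv
      rw [neg_zero, exp_zero, mul_one]
    show dist (pt _ _ _) (pt 0 (pp n) GG) = 0
    rw [e1, e2, e3, dist_self]
  · intro t ht htT
    rw [hTT] at htT ⊢
    show Fn j (if t ≤ T then c (min t T) else ray j (t - T)).P ≤ T - t
    rw [if_pos htT, min_eq_left htT, hceq t ht htT]
    show min (th (lv t) (Dn j (ps D0 σ (pp j) t))) (2 * ell) ≤ T - t
    refine (min_le_left _ _).trans ?_
    have h1 : 0 ≤ dd D0 t := dd_nonneg hD0n (by rw [← hT]; exact htT)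
    have h2 : 0 ≤ Dn j (ps D0 σ (pp j) t) ∧ Dn j (ps D0 σ (pp j) t) ≤ dd D0 t := by
      unfold Dn
      split_ifs with h
      · show 0 ≤ ell - (ell - min (dd D0 t) ell) ∧ ell - (ell - min (dd D0 t) ell) ≤ dd D0 t
        rw [sub_sub_cancel]
        exact ⟨le_min h1 hell.le, min_le_left _ _⟩
      · show 0 ≤ ell + (ell - min (dd D0 t) ell) + |pp j + σ * max 0 (dd D0 t - ell) - pp j| ∧
          ell + (ell - min (dd D0 t) ell) + |pp j + σ * max 0 (dd D0 t - ell) - pp j| ≤ dd D0 t
        have h3 : ell < dd D0 t := by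
          by_contra hcon
          push Not at hcon
          apply h
          show pp j + σ * max 0 (dd D0 t - ell) = pp j
          rw [max_eq_left (by linarith), mul_zero, add_zero]
        rw [min_eq_right h3.le, max_eq_right (by linarith), add_sub_cancel_left, abs_mul,
          abs_of_pos (by linarith : 0 < dd D0 t - ell)]
        have h4 : 0 ≤ |σ| := abs_nonneg _
        constructor
        · nlinarith
        · nlinarith
    refine (th_mono_right h2.1 h2.2).trans ?_
    rw [th_dd hD0n, ← hT]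
  · intro t ht
    rw [hTT] at ht ⊢
    show dist (if t ≤ T then c (min t T) else ray j (t - T)) (ray j (t - T)) = 0
    split_ifs with h
    · have : t = T := le_antisymm h ht
      rw [this, sub_self]
      exact hcT
    · exact dist_self _

end Pool.Agent.N55.LCRUN
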