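import Mathlib
import Pool.Agent.N580.SY.Stm

set_option autoImplicit false

/-! Project SY (helper580), leaf EQV: automorphisms of a circuit preserve the constant terms and
the gradients at `0` of the polynomials of its nodes. -/

namespace Pool.Agent.N55.SY

open Pool.Agent.N580.SY

theorem eqv : EQV := by
  intro V F N _ _ _ S P c L H hJ e π he hπ
  obtain ⟨hv, hc, ha, hm⟩ := hJ
  obtain ⟨p1, p2, p3⟩ := hπ
  have key : ∀ k n, S.rank n = k → c (π n) = c n ∧ ∀ w, L (π n) (e w) = L n w := by
    intro k
    induction k using Nat.strong_induction_on with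
    | _ k ih =>
      intro n hn
      have hl := p1 n
      rcases h : S.lab n with v | a | _ | _
      · have hl' : S.lab (π n) = .var (e v) := by rw [hl, h]; rfl
        obtain ⟨a1, a2, -⟩ := hv n v h
        obtain ⟨b1, b2, -⟩ := hv (π n) (e v) hl'
        refine ⟨by rw [a1, b1], fun w => ?_⟩
        rw [a2, b2]
        simp only [he.eq_iff]
      · have hl' : S.lab (π n) = .const a := by rw [hl, h]; rfl
        obtain ⟨a1, a2, -⟩ := hc n a h
        obtain ⟨b1, b2, -⟩ := hc (π n) a hl'
        exact ⟨by rw [a1, b1], fun w => by rw [a2, b2]⟩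
      · have hl' : S.lab (π n) = .add := by rw [hl, h]; rfl
        obtain ⟨a1, a2, -⟩ := ha n h
        obtain ⟨b1, b2, -⟩ := ha (π n) hl'
        have hterm : ∀ n', S.wt n n' ≠ 0 → c (π n') = c n' ∧ ∀ w, L (π n') (e w) = L n' w :=
          fun n' h' => ih _ (hn ▸ S.rank_add n n' h h') n' rfl
        refine ⟨?_, fun w => ?_⟩
        · rw [a1, b1, ← Equiv.sum_comp π]
          apply Finset.sum_congr rfl
          intro n' _
          rw [p2 n n' h]
          by_cases h' : S.wt n n' = 0
          · rw [h', zero_mul, zero_mul]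
          · rw [(hterm n' h').1]
        · rw [a2, b2, ← Equiv.sum_comp π]
          apply Finset.sum_congr rfl
          intro n' _
          rw [p2 n n' h]
          by_cases h' : S.wt n n' = 0
          · rw [h', zero_mul, zero_mul]
          · rw [(hterm n' h').2]
      · have hl' : S.lab (π n) = .mul := by rw [hl, h]; rfl
        obtain ⟨a1, a2, -⟩ := hm n h
        obtain ⟨b1, b2, -⟩ := hm (π n) hl'
        obtain ⟨r1, r2⟩ := S.rank_mul n h
        obtain ⟨c1, c2⟩ := ih _ (hn ▸ r1) (S.lft n) rfl
        obtain ⟨d1, d2⟩ := ih _ (hn ▸ r2) (S.rgt n) rfl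
        rcases p3 n h with ⟨q1, q2⟩ | ⟨q1, q2⟩
        · exact ⟨by rw [a1, b1, q1, q2, c1, d1],
            fun w => by rw [a2, b2, q1, q2, c1, c2, d1, d2]⟩
        · exact ⟨by rw [a1, b1, q1, q2, c1, d1, mul_comm],
            fun w => by rw [a2, b2, q1, q2, c1, c2, d1, d2, add_comm]⟩
  exact ⟨fun n => (key _ n rfl).1, fun n => (key _ n rfl).2⟩

end Pool.Agent.N55.SY
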